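import Pool.Agent.HexTube.Main
import Pool.Agent.W47.Triangle

/-!
The tube lemma in the infinite strip.
-/

set_option autoImplicit false

namespace HexObs

open Complex Finset ENNReal

namespace Tube

/-- words of gE leave the corner domain -/
lemma gE_sub {T L r : ℕ} (hT : 1 ≤ T) (hL : 1 ≤ L) (hr : 1 ≤ r) :
    ((gE upm oo false T L r : Finset (List Bool)) : Set (List Bool)) ⊆ out (corner T r) oo up (rotR up) := by
  intro t ht
  obtain ⟨h1, h2⟩ := Finset.mem_filter.1 (Finset.mem_coe.1 ht)
  obtain ⟨ha, _⟩ := mem_exits.1 h1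
  obtain ⟨⟨a1, a2, a3, a4, a5⟩, ⟨b1, b2, b3, b4⟩, ⟨c1, c2, c3⟩, ⟨e1, e2⟩, f1⟩ := dirs_distinct up upm
  have h2' : dx up t t.length = rotR up := h2
  have key : ip (tip oo up t - oo) (gn false up) = gc false r := by
    rcases dm_exit upm false hT hL hr h1 with ⟨hd, _⟩ | ⟨hd, _⟩ | ⟨hd, _⟩ | ⟨_, hi⟩
    · exact absurd (hd.symm.trans h2') c3
    · exact absurd (h2'.symm.trans hd) a2
    · exact absurd (h2'.symm.trans hd) b1
    · exact hi
  refine ⟨⟨fun i h3 h4 => ?_, ha.inj⟩, ?_, h2'⟩
  · have h5 := ha.mem i h3 h4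
    rw [mem_dF] at h5
    exact ⟨h5.1, h5.2.2⟩
  · rintro ⟨_, h5⟩
    have k2 : ip (tip oo up t - oo) (rotR up) = 3 * r := key
    omega

lemma gE_le_sc {T L r : ℕ} (hT : 1 ≤ T) (hL : 1 ≤ L) (hr : 1 ≤ r) :
    ENNReal.ofReal (wS (gE upm oo false T L r)) ≤ sc T r := by
  have h := gf_mono (gE_sub hT hL hr)
  rw [gf_finset] at h
  exact h

/-- the weights of the finite domains exhaust the corner weight -/
lemma sc_le {T r : ℕ} (hT : 1 ≤ T) (hr : 1 ≤ r) {c : ℝ≥0∞}
    (hc : ∀ L, 1 ≤ L → ENNReal.ofReal (wS (gE upm oo false T L r)) ≤ c) : sc T r ≤ c := by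
  have dmono : ∀ L L' : ℕ, L ≤ L' → dm oo up false T (L + 1) r ⊆ dm oo up false T (L' + 1) r := by
    rintro L L' h v ⟨h1, h2, h3⟩
    have h4 : ((L : ℕ) : ℤ) ≤ L' := by exact_mod_cast h
    refine ⟨h1, ?_, h3⟩
    push_cast at h2 ⊢
    linarith
  apply gf_le_of_mono_union (fun L => {t | t ∈ out (corner T r) oo up (rotR up) ∧ Saw (dm oo up false T (L + 1) r) oo up t})
  · intro L L' h t ht
    exact ⟨ht.1, ht.2.mono (dmono L L' h)⟩
  · intro t ht
    rw [Set.mem_iUnion]
    have h1 : Saw (strip oo up T) oo up t := ht.1.mono (fun v hv => hv.1)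
    obtain ⟨L, hL⟩ := saw_trap h1
    refine ⟨L, ht, fun i h3 h4 => ?_, ht.1.inj⟩
    have h5 := ht.1.mem i h3 h4
    have h6 := hL.mem i h3 h4
    exact ⟨h5.1, h6.2.1, h5.2⟩
  · intro L
    refine le_trans (gf_mono ?_) (le_trans (le_of_eq (gf_finset (gE upm oo false T (L + 1) r))) (hc (L + 1) (by omega)))
    rintro t ⟨⟨h1, h2, h3⟩, h4⟩
    refine Finset.mem_coe.2 (Finset.mem_filter.2 ⟨mem_exits.2 ⟨⟨fun i h5 h6 => ?_, h4.inj⟩, fun h5 => ?_⟩, h3⟩)
    · rw [mem_dF]
      exact h4.mem i h5 h6
    · rw [mem_dF] at h5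
      exact h2 ⟨h5.1, h5.2.2⟩

/-- LAT1 -/
theorem lat1 (T m : ℕ) (hT : 1 ≤ T) (hm : 1 ≤ m) :
    (sc T (m * T)).toReal ≤ 6000 * (2 - Real.sqrt 2) ^ m * bT T := by
  have hb := bT_nonneg T
  have hq : 0 < (2 - Real.sqrt 2) ^ m := pow_pos q0_pos m
  have h : sc T (m * T) ≤ ENNReal.ofReal (6000 * (2 - Real.sqrt 2) ^ m * bT T) :=
    sc_le hT (Nat.mul_pos hm hT) (fun L hL => ENNReal.ofReal_le_ofReal (lat_fin T hT m L hm hL))
  have h2 := ENNReal.toReal_mono ENNReal.ofReal_ne_top h
  rwa [ENNReal.toReal_ofReal (by positivity)] at h2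

theorem sc_top (T r : ℕ) (hT : 1 ≤ T) (hr : 1 ≤ r) : sc T r ≠ ∞ := sc_ne_top hT hr

/-- the corner weights decrease -/
theorem sc_anti' {T r r' : ℕ} (hT : 1 ≤ T) (hr : 1 ≤ r) (h : r ≤ r') : sc T r' ≤ sc T r :=
  sc_le hT (le_trans hr h) (fun _ hL => (ENNReal.ofReal_le_ofReal (z_anti upm oo hT hL hr h)).trans (gE_le_sc hT hL hr))

theorem sc_anti {T r : ℕ} (hT : 1 ≤ T) (hr : 1 ≤ r) : sc T (r + 1) ≤ sc T r := sc_anti' hT hr (Nat.le_succ r)

/-- one height of the strip costs the factor 2 - √2 -/
theorem sc_shift {T r : ℕ} (hT : 1 ≤ T) (hr : 1 ≤ r) : sc T (r + T) ≤ ENNReal.ofReal (2 - Real.sqrt 2) * sc T r := by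
  apply sc_le hT (by omega)
  intro L hL
  refine (ENNReal.ofReal_le_ofReal (z_shift upm oo hT hL hr)).trans ?_
  rw [ENNReal.ofReal_mul q0_pos.le]
  exact mul_le_mul_right (gE_le_sc hT hL hr) _

theorem sc_le_two {T r : ℕ} (hT : 1 ≤ T) (hr : 1 ≤ r) : (sc T r).toReal ≤ 2 := by
  have h : sc T r ≤ ENNReal.ofReal 2 :=
    sc_le hT hr (fun L hL => ENNReal.ofReal_le_ofReal (z_le_two upm oo hT hL hr))
  have h2 := ENNReal.toReal_mono ENNReal.ofReal_ne_top h
  rwa [ENNReal.toReal_ofReal (by norm_num)] at h2

/-- top exits of the strip that are not exits of the part left of the gate -/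
lemma top_le [DecidableEq (List Bool)] {T L r r' : ℕ} (hT : 1 ≤ T) (hL : 1 ≤ L) (hr : 1 ≤ r) (hrr : r ≤ r')
    {A : Finset (List Bool)} (hA : ∀ t ∈ A, t ∈ exits (dF upm oo false T L r') oo up ∧
      t ∉ exits (dF upm oo false T L r) oo up ∧ dx up t t.length = up) :
    wS A ≤ wS (gE upm oo false T L r) := by
  have hs : dF upm oo false T L r ⊆ dF upm oo false T L r' := by
    intro v hv
    rw [mem_dF] at hv ⊢
    obtain ⟨h1, h2, h3⟩ := hv
    have h6 : ip (v - oo) (rotR up) < 3 * r := h3
    have h7 : (r : ℤ) ≤ r' := by exact_mod_cast hrr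
    refine ⟨h1, h2, ?_⟩
    show ip (v - oo) (rotR up) < 3 * r'
    linarith
  have h1 := two_dom upm (dF_half upm oo false T L r) (dF_half upm oo false T L r') (-(Real.pi / 8))
  have hr' : 1 ≤ r' := by omega
  have h2 : ∑ t ∈ A, fb (-(Real.pi / 8)) t ≤
      ∑ t ∈ exits (dF upm oo false T L r') oo up \ exits (dF upm oo false T L r) oo up, fb (-(Real.pi / 8)) t := by
    apply Finset.sum_le_sum_of_subset_of_nonneg
    · intro t ht
      obtain ⟨h3, h4, _⟩ := hA t ht
      exact Finset.mem_sdiff.2 ⟨h3, h4⟩
    · intro t ht _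
      exact fb_nonneg abs2 (dm_wind upm false hT hL hr' (Finset.mem_sdiff.1 ht).1)
  have h3 : ∑ t ∈ exits (dF upm oo false T L r) oo up \ exits (dF upm oo false T L r') oo up, fb (-(Real.pi / 8)) t ≤
      ∑ t ∈ gE upm oo false T L r, fb (-(Real.pi / 8)) t := by
    apply Finset.sum_le_sum_of_subset_of_nonneg
    · intro t ht
      obtain ⟨h4, h5⟩ := Finset.mem_sdiff.1 ht
      refine Finset.mem_filter.2 ⟨h4, exit_gate upm oo (k' := false) (r' := r') hT hL hr h4 ?_⟩
      by_contra hcon
      obtain ⟨ha, _⟩ := mem_exits.1 h4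
      exact h5 (mem_exits.2 ⟨⟨fun i h6 h7 => hs (ha.mem i h6 h7), ha.inj⟩, hcon⟩)
    · intro t ht _
      exact fb_nonneg abs2 (dm_wind upm false hT hL hr (Finset.mem_filter.1 ht).1)
  rw [sum_fb_const (w := 0) (fun t ht => dm_wind_top upm false hT hL hr' (hA t ht).1 (hA t ht).2.2)] at h2
  rw [sum_fb_const (gE_wind upm oo false hT hL hr)] at h3
  have e1 : ((0 : ℤ) : ℝ) * (Real.pi / 8) + -(Real.pi / 8) = -(Real.pi / 8) := by
    push_cast
    ring
  have e2 : (gw false : ℝ) * (Real.pi / 8) + -(Real.pi / 8) = -(Real.pi / 4) := by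
    show ((-1 : ℤ) : ℝ) * (Real.pi / 8) + -(Real.pi / 8) = _
    push_cast
    ring
  rw [e1, Real.cos_neg] at h2
  rw [e2, Real.cos_neg] at h3
  have hc : Real.cos (Real.pi / 4) ≤ Real.cos (Real.pi / 8) := by
    apply Real.cos_le_cos_of_nonneg_of_le_pi (by positivity)
    · linarith [Real.pi_pos]
    · linarith [Real.pi_pos]
  have h4 : Real.cos (Real.pi / 8) * wS A ≤ Real.cos (Real.pi / 8) * wS (gE upm oo false T L r) := by
    have := mul_le_mul_of_nonneg_right hc (wS_nonneg (gE upm oo false T L r))
    linarith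
  exact le_of_mul_le_mul_left h4 cos_pos

/-- bridges that reach the distance r weigh at most the corner weight -/
theorem far_le (T r : ℕ) (hT : 1 ≤ T) (hr : 1 ≤ r) :
    gf {t | t ∈ Br (St T) ∅ oo up ∧ ∃ i, i ≤ t.length + 1 ∧ (3 * r : ℤ) ≤ ip (vx oo up t i - oo) (rotR up)} ≤
      sc T r := by
  classical
  set P := {t | t ∈ Br (St T) ∅ oo up ∧ ∃ i, i ≤ t.length + 1 ∧ (3 * r : ℤ) ≤ ip (vx oo up t i - oo) (rotR up)} with hP
  apply gf_le_of_mono_union (fun L => {t | t ∈ P ∧ Saw (trap oo up T (L + 1)) oo up t})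
  · intro L L' h t ht
    exact ⟨ht.1, ht.2.mono (trap_mono oo up T (by omega))⟩
  · intro t ht
    rw [Set.mem_iUnion]
    have h0 := ht.1.1
    rw [Set.sdiff_empty] at h0
    obtain ⟨L, hL⟩ := saw_trap h0
    exact ⟨L, ht, hL⟩
  · intro L
    -- the words in a finite domain
    apply gf_le_of_finset
    intro A hAF
    have key : wS A ≤ wS (gE upm oo false T (L + r + 1) r) := by
      apply top_le hT (by omega) hr (r' := L + r + 1) (by omega)
      intro t ht
      obtain ⟨⟨⟨b1, b2, b3⟩, i, hi, hfar⟩, hsaw⟩ := hAF (Finset.mem_coe.2 ht)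
      rw [Set.sdiff_empty] at b1
      have hsub : trap oo up T (L + 1) ⊆ dm oo up false T (L + r + 1) (L + r + 1) := by
        rintro v ⟨h1, h2, h3⟩
        have hr0 : (0 : ℤ) ≤ r := by positivity
        refine ⟨h1, ?_, ?_⟩
        · push_cast at h2 ⊢
          linarith
        · show ip (v - oo) (rotR up) < 3 * ((L + r + 1 : ℕ) : ℤ)
          push_cast at h3 ⊢
          linarith
      refine ⟨mem_exits.2 ⟨⟨fun j h3 h4 => ?_, b1.inj⟩, fun h5 => ?_⟩, ?_, b3⟩
      · rw [mem_dF]
        exact hsub (hsaw.mem j h3 h4)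
      · rw [mem_dF] at h5
        exact b2 h5.1
      · intro hcon
        obtain ⟨c1, _⟩ := mem_exits.1 hcon
        -- the vertex number i
        have hin : ∀ j, 1 ≤ j → j ≤ t.length → ip (vx oo up t j - oo) (rotR up) < 3 * r := by
          intro j h3 h4
          have h5 := c1.mem j h3 h4
          rw [mem_dF] at h5
          exact h5.2.2
        have hr0 : (1 : ℤ) ≤ r := by exact_mod_cast hr
        rcases Nat.eq_zero_or_pos i with hi0 | hi0
        · have hz : vx oo up t 0 = oo := rfl
          rw [hi0, hz, sub_self] at hfar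
          have : ip (0 : Pt) (rotR up) = 0 := by decide
          rw [this] at hfar
          linarith
        · rcases Nat.lt_or_ge t.length i with hlt | hge
          · -- the tip
            have hie : i = t.length + 1 := by omega
            have htip : vx oo up t i = vx oo up t t.length + up := by
              rw [hie]
              have := tip_eq (v0 := oo) (d0 := up) t
              rw [b3] at this
              exact this
            have hpos : 1 ≤ t.length := by
              by_contra hcon2
              have hz : t.length = 0 := by omega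
              have hnil : t = [] := List.length_eq_zero_iff.1 hz
              rw [hnil] at b2
              exact b2 (by
                have := dm_start (v0 := oo) upm false hT (le_refl 1) (le_refl 1)
                exact this.1)
            have hlast := b1.mem t.length hpos le_rfl
            have h5 := hin t.length hpos le_rfl
            have h6 : ip (vx oo up t i - oo) (rotR up) = ip (vx oo up t t.length - oo) (rotR up) + 1 := by
              rw [htip]
              have : vx oo up t t.length + up - oo = (vx oo up t t.length - oo) + up := by abel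
              rw [this, ip_add_left]
              have : ip up (rotR up) = 1 := by decide
              rw [this]
            -- the last vertex is on the level 3 T
            have h7 : ip (tip oo up t - oo) up = 3 * T + 2 := by
              rcases strip_exit upm hT b1 b2 with h | h
              · exfalso
                rw [h.1] at b3
                exact absurd b3 (by decide)
              · exact h.2
            have h8 : ip (vx oo up t t.length - oo) up = 3 * T := by
              have h9 : tip oo up t - oo = (vx oo up t t.length - oo) + up := by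
                have := tip_eq (v0 := oo) (d0 := up) t
                rw [b3] at this
                rw [this]
                abel
              rw [h9, ip_add_left] at h7
              have : ip up up = 2 := by decide
              rw [this] at h7
              linarith
            -- its class
            have h10 : cl (vx oo up t t.length) = cl oo := by
              rcases hlast.1 with h | h
              · exact h
              · exfalso
                have h11 : ((ip (vx oo up t t.length - oo) up : ℤ) : ZMod 3) = _ := ip_mod _ _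
                rw [h8, cl_sub, h] at h11
                revert h11
                have : cl up ≠ 0 := by decide
                have e1 : cl oo + cl up - cl oo = cl up := by ring
                rw [e1]
                push_cast
                have e2 : (3 : ZMod 3) = 0 := by decide
                rw [e2, zero_mul]
                decide
            have h12 : ((ip (vx oo up t t.length - oo) (rotR up) : ℤ) : ZMod 3) = 0 := by
              rw [ip_mod, cl_sub, h10, sub_self, zero_mul, neg_zero]
            have h13 : (3 : ℤ) ∣ ip (vx oo up t t.length - oo) (rotR up) :=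
              (ZMod.intCast_zmod_eq_zero_iff_dvd _ 3).1 h12
            rw [h6] at hfar
            omega
          · have := hin i hi0 hge
            linarith
    have h3 : gf ((A : Finset (List Bool)) : Set (List Bool)) ≤ sc T r := by
      rw [gf_finset]
      exact (ENNReal.ofReal_le_ofReal key).trans (gE_le_sc hT (by omega) hr)
    exact h3

end Tube

end HexObs
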