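import Pool.Agent.HexObs.WDefs

/-!
Differences of contour identities of nested domains, with a rotated phase.
-/

set_option autoImplicit false

namespace HexObs

open Complex Finset ENNReal

namespace Tube

/-- real part of the phase rotated by β, times the weight -/
noncomputable def fb (β : ℝ) (t : List Bool) : ℝ := Real.cos (wind t * (Real.pi / 8) + β) * xc ^ t.length

lemma sum_fb (Ω : Finset Pt) {v0 d0 : Pt} (h0 : d0 ∈ dirs) (hh : ∀ v ∈ Ω, 0 < ip (v - v0) d0) (β : ℝ) :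
    ∑ t ∈ exits Ω v0 d0, fb β t = Real.cos β := by
  have h1 := identity_re Ω h0 hh
  have h2 := identity_im Ω h0 hh
  have e : ∀ t ∈ exits Ω v0 d0, fb β t = Real.cos β * (Real.cos (wind t * (Real.pi / 8)) * xc ^ t.length) -
      Real.sin β * (Real.sin (wind t * (Real.pi / 8)) * xc ^ t.length) := by
    intro t _
    unfold fb
    rw [Real.cos_add]
    ring
  rw [Finset.sum_congr rfl e, Finset.sum_sub_distrib, ← Finset.mul_sum, ← Finset.mul_sum, h1, h2]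
  ring

/-- difference of two nested domains -/
lemma two_dom [DecidableEq (List Bool)] {Ω Ω' : Finset Pt} {v0 d0 : Pt} (h0 : d0 ∈ dirs)
    (hh : ∀ v ∈ Ω, 0 < ip (v - v0) d0) (hh' : ∀ v ∈ Ω', 0 < ip (v - v0) d0) (β : ℝ) :
    ∑ t ∈ exits Ω v0 d0 \ exits Ω' v0 d0, fb β t = ∑ t ∈ exits Ω' v0 d0 \ exits Ω v0 d0, fb β t := by
  have h1 := sum_fb Ω h0 hh β
  have h2 := sum_fb Ω' h0 hh' β
  have h3 := Finset.sum_inter_add_sum_sdiff (exits Ω v0 d0) (exits Ω' v0 d0) (fb β)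
  have h4 := Finset.sum_inter_add_sum_sdiff (exits Ω' v0 d0) (exits Ω v0 d0) (fb β)
  rw [Finset.inter_comm] at h4
  linarith

/-- difference of four domains: the walks that leave the low part -/
lemma four_dom [DecidableEq (List Bool)] {Ω Ω' ω ω' : Finset Pt} {v0 d0 : Pt} (h0 : d0 ∈ dirs)
    (hh' : ∀ v ∈ Ω', 0 < ip (v - v0) d0) (hs : Ω ⊆ Ω') (hω : ω ⊆ Ω) (hω' : ω' ⊆ Ω')
    (hi : ∀ v, v ∈ Ω → v ∈ ω' → v ∈ ω) (hωω : ω ⊆ ω')
    (hg : ∀ t, t ∈ exits Ω v0 d0 → t ∈ exits ω v0 d0 → tip v0 d0 t ∈ Ω' → tip v0 d0 t ∈ ω') (β : ℝ) :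
    ∑ t ∈ (exits Ω' v0 d0 \ exits Ω v0 d0) \ exits ω' v0 d0, fb β t =
      ∑ t ∈ (exits Ω v0 d0 \ exits Ω' v0 d0) \ exits ω v0 d0, fb β t +
      ∑ t ∈ (exits ω' v0 d0 \ exits ω v0 d0) \ exits Ω' v0 d0, fb β t := by
  have hhΩ : ∀ v ∈ Ω, 0 < ip (v - v0) d0 := fun v hv => hh' v (hs hv)
  have hhω : ∀ v ∈ ω, 0 < ip (v - v0) d0 := fun v hv => hhΩ v (hω hv)
  have hhω' : ∀ v ∈ ω', 0 < ip (v - v0) d0 := fun v hv => hh' v (hω' hv)
  have h1 := two_dom h0 hhΩ hh' β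
  have h2 := two_dom h0 hhω hhω' β
  have monoA : ∀ {A B : Finset Pt} {t : List Bool}, A ⊆ B → IsArr A v0 d0 t → IsArr B v0 d0 t :=
    fun hAB ht => ⟨fun i h3 h4 => hAB (ht.mem i h3 h4), ht.inj⟩
  -- the two intersections agree
  have e1 : (exits Ω' v0 d0 \ exits Ω v0 d0) ∩ exits ω' v0 d0 =
      (exits ω' v0 d0 \ exits ω v0 d0) ∩ exits Ω' v0 d0 := by
    ext t
    simp only [Finset.mem_inter, Finset.mem_sdiff, mem_exits]
    constructor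
    · rintro ⟨⟨⟨a1, a2⟩, a3⟩, ⟨b1, b2⟩⟩
      refine ⟨⟨⟨b1, b2⟩, ?_⟩, ⟨a1, a2⟩⟩
      rintro ⟨c1, _⟩
      exact a3 ⟨monoA hω c1, fun h => a2 (hs h)⟩
    · rintro ⟨⟨⟨b1, b2⟩, b3⟩, ⟨a1, a2⟩⟩
      refine ⟨⟨⟨a1, a2⟩, ?_⟩, ⟨b1, b2⟩⟩
      rintro ⟨c1, _⟩
      refine b3 ⟨⟨fun i h3 h4 => hi _ (c1.mem i h3 h4) (b1.mem i h3 h4), c1.inj⟩, fun h => a2 (hs (hω h))⟩
  have e2 : (exits Ω v0 d0 \ exits Ω' v0 d0) ∩ exits ω v0 d0 = exits ω v0 d0 \ exits ω' v0 d0 := by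
    ext t
    simp only [Finset.mem_inter, Finset.mem_sdiff]
    constructor
    · rintro ⟨⟨a1, a2⟩, a3⟩
      refine ⟨a3, ?_⟩
      intro h4
      have b1 := mem_exits.1 a1
      have b4 := mem_exits.1 h4
      have htip : tip v0 d0 t ∈ Ω' := by
        by_contra hcon
        exact a2 (mem_exits.2 ⟨monoA hs b1.1, hcon⟩)
      exact b4.2 (hg t a1 a3 htip)
    · rintro ⟨a1, a2⟩
      have b1 := mem_exits.1 a1
      have htip : tip v0 d0 t ∈ ω' := by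
        by_contra hcon
        exact a2 (mem_exits.2 ⟨monoA hωω b1.1, hcon⟩)
      refine ⟨⟨mem_exits.2 ⟨monoA hω b1.1, fun h => b1.2 (hi _ h htip)⟩, ?_⟩, a1⟩
      intro h
      exact (mem_exits.1 h).2 (hω' htip)
  have h3 := Finset.sum_inter_add_sum_sdiff (exits Ω' v0 d0 \ exits Ω v0 d0) (exits ω' v0 d0) (fb β)
  have h4 := Finset.sum_inter_add_sum_sdiff (exits Ω v0 d0 \ exits Ω' v0 d0) (exits ω v0 d0) (fb β)
  have h5 := Finset.sum_inter_add_sum_sdiff (exits ω' v0 d0 \ exits ω v0 d0) (exits Ω' v0 d0) (fb β)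
  rw [e1] at h3
  rw [e2] at h4
  linarith

/-- cosines of the admissible windings are nonnegative -/
lemma fb_nonneg {β : ℝ} (hβ : |β| ≤ Real.pi / 8) {t : List Bool} (h : -3 ≤ wind t ∧ wind t ≤ 3) : 0 ≤ fb β t := by
  unfold fb
  apply mul_nonneg _ (pow_nonneg xc_pos.le _)
  obtain ⟨h1, h2⟩ := abs_le.1 hβ
  have h3 : (-3 : ℝ) ≤ wind t := by exact_mod_cast h.1
  have h4 : (wind t : ℝ) ≤ 3 := by exact_mod_cast h.2
  apply Real.cos_nonneg_of_mem_Icc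
  constructor <;> nlinarith [Real.pi_pos]

end Tube

end HexObs
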