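import Pool.Agent.HexTube.Two
import Pool.Agent.HexObs.Corner

/-!
The strip left of a gate; gates of normal rotR d0 and rotR (rotR d0).
-/

set_option autoImplicit false

namespace HexObs

open Complex Finset ENNReal

namespace Tube

/-- the normal of the gate -/
def gn (k : Bool) (d0 : Pt) : Pt := if k then rotR (rotR d0) else rotR d0

/-- the position of the gate -/
def gc (k : Bool) (r : ℕ) : ℤ := if k then 3 * r - 1 else 3 * r

/-- the strip of height T, left of the gate -/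
def dm (v0 d0 : Pt) (k : Bool) (T L r : ℕ) : Set Pt :=
  {v | v ∈ strip v0 d0 T ∧ ip (v - v0) (rotL d0) < 3 * L ∧ ip (v - v0) (gn k d0) < gc k r}

lemma gn_mem {d0 : Pt} (h0 : d0 ∈ dirs) (k : Bool) : gn k d0 ∈ dirs := by
  cases k
  · exact rotR_mem h0
  · exact rotR_mem (rotR_mem h0)

/-- a foot of the gate -/
def gb (v0 d0 : Pt) (k : Bool) (r : ℕ) : Pt :=
  if k then v0 + d0 + (r : ℤ) • hz d0 else v0 + (r : ℤ) • (d0 + rotR d0)

lemma gn_d0 {d0 : Pt} (h0 : d0 ∈ dirs) (k : Bool) : ip d0 (gn k d0) = if k then -1 else 1 := by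
  revert d0
  cases k <;> decide

lemma hz_gn {d0 : Pt} (h0 : d0 ∈ dirs) (k : Bool) : ip (hz d0) (gn k d0) = 3 := by
  revert d0
  cases k <;> decide

lemma gb_ip {v0 d0 : Pt} (h0 : d0 ∈ dirs) (k : Bool) (r : ℕ) (v : Pt) :
    ip (gb v0 d0 k r - v) (gn k d0) = gc k r - ip (v - v0) (gn k d0) := by
  cases k
  · show ip (v0 + (r : ℤ) • (d0 + rotR d0) - v) (rotR d0) = 3 * r - ip (v - v0) (rotR d0)
    have : v0 + (r : ℤ) • (d0 + rotR d0) - v = (r : ℤ) • (d0 + rotR d0) - (v - v0) := by abel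
    rw [this, ip_sub_left, ip_smul_left, ip_add_left, ip_rotR_self h0, ip_rotR_rotR h0]
    ring
  · show ip (v0 + d0 + (r : ℤ) • hz d0 - v) (rotR (rotR d0)) = 3 * r - 1 - ip (v - v0) (rotR (rotR d0))
    have h1 : ip d0 (rotR (rotR d0)) = -1 := gn_d0 h0 true
    have h2 : ip (hz d0) (rotR (rotR d0)) = 3 := hz_gn h0 true
    have : v0 + d0 + (r : ℤ) • hz d0 - v = d0 + (r : ℤ) • hz d0 - (v - v0) := by abel
    rw [this, ip_sub_left, ip_add_left, ip_smul_left, h1, h2]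
    ring

/-- the sides -/
def dmS (v0 d0 : Pt) (k : Bool) (T L r : ℕ) : Set (Pt × Pt) :=
  {(v0, -d0), (v0 + d0 + (T : ℤ) • (d0 + rotL d0), d0), (v0 + (L : ℤ) • (d0 + rotL d0), rotL d0),
    (gb v0 d0 k r, gn k d0)}

lemma dmS_side {v0 d0 : Pt} (h0 : d0 ∈ dirs) (k : Bool) (T L r : ℕ) : ∀ s ∈ dmS v0 d0 k T L r, IsSide v0 d0 s := by
  intro s hs
  rcases hs with rfl | rfl | rfl | rfl
  · exact ⟨neg_mem_dirs h0, Or.inl ⟨rfl, cl_neg d0⟩⟩
  · refine ⟨h0, Or.inr ⟨?_, rfl⟩⟩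
    simp only [cl_add, cl_smul, cl_rotL]
    ring
  · refine ⟨rotL_mem h0, Or.inl ⟨?_, cl_rotL d0⟩⟩
    simp only [cl_add, cl_smul, cl_rotL]
    ring
  · refine ⟨gn_mem h0 k, ?_⟩
    cases k
    · left
      constructor
      · show cl (v0 + (r : ℤ) • (d0 + rotR d0)) = cl v0
        simp only [cl_add, cl_smul, cl_rotR]
        ring
      · exact cl_rotR d0
    · right
      constructor
      · show cl (v0 + d0 + (r : ℤ) • hz d0) = cl v0 + cl d0
        simp only [cl_add, cl_smul, CB.cl_hz]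
        ring
      · show cl (rotR (rotR d0)) = cl d0
        rw [cl_rotR, cl_rotR, neg_neg]

lemma dmS_iff {v0 d0 : Pt} (h0 : d0 ∈ dirs) (k : Bool) (T L r : ℕ) (v : Pt) :
    v ∈ dm v0 d0 k T L r ↔ IsHex v0 d0 v ∧ ∀ s ∈ dmS v0 d0 k T L r, 0 < ip (s.1 - v) s.2 := by
  have e1 : ip (v0 - v) (-d0) = ip (v - v0) d0 := by
    rw [ip_neg_right, ← ip_neg_left]
    congr 1
    abel
  have e2 : ip (v0 + d0 + (T : ℤ) • (d0 + rotL d0) - v) d0 = 3 * T + 2 - ip (v - v0) d0 := by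
    have : v0 + d0 + (T : ℤ) • (d0 + rotL d0) - v = d0 + (T : ℤ) • (d0 + rotL d0) - (v - v0) := by abel
    rw [this, ip_sub_left, ip_add_left, ip_smul_left, ip_add_left, ip_self_dir h0, ip_comm (rotL d0), ip_rotL_self h0]
    ring
  have e3 : ip (v0 + (L : ℤ) • (d0 + rotL d0) - v) (rotL d0) = 3 * L - ip (v - v0) (rotL d0) := by
    have : v0 + (L : ℤ) • (d0 + rotL d0) - v = (L : ℤ) • (d0 + rotL d0) - (v - v0) := by abel
    rw [this, ip_sub_left, ip_smul_left, ip_add_left, ip_rotL_self h0, ip_rotL_rotL h0]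
    ring
  have e4 := gb_ip (v0 := v0) h0 k r v
  constructor
  · rintro ⟨⟨h1, h2, h3⟩, h4, h5⟩
    refine ⟨h1, ?_⟩
    intro s hs
    rcases hs with rfl | rfl | rfl | rfl
    · show 0 < ip (v0 - v) (-d0)
      rw [e1]
      exact h2
    · show 0 < ip (v0 + d0 + (T : ℤ) • (d0 + rotL d0) - v) d0
      rw [e2]
      linarith
    · show 0 < ip (v0 + (L : ℤ) • (d0 + rotL d0) - v) (rotL d0)
      rw [e3]
      linarith
    · show 0 < ip (gb v0 d0 k r - v) (gn k d0)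
      rw [e4]
      linarith
  · rintro ⟨h1, h2⟩
    have a1 := h2 (v0, -d0) (by simp [dmS])
    have a2 := h2 (v0 + d0 + (T : ℤ) • (d0 + rotL d0), d0) (by simp [dmS])
    have a3 := h2 (v0 + (L : ℤ) • (d0 + rotL d0), rotL d0) (by simp [dmS])
    have a4 := h2 (gb v0 d0 k r, gn k d0) (by simp [dmS])
    simp only [] at a1 a2 a3 a4
    rw [e1] at a1
    rw [e2] at a2
    rw [e3] at a3
    rw [e4] at a4
    exact ⟨⟨h1, a1, by linarith⟩, by linarith, by linarith⟩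

lemma gate_sum (p d : Pt) : ip p d + ip p (rotR (rotR d)) = ip p (rotR d) := by
  unfold ip rotR
  ring

lemma dm_finite {v0 d0 : Pt} (h0 : d0 ∈ dirs) (k : Bool) (T L r : ℕ) : (dm v0 d0 k T L r).Finite := by
  apply (trap_finite (v0 := v0) h0 T (L + r + T + 1)).subset
  rintro v ⟨h1, h2, h3⟩
  refine ⟨h1, ?_, ?_⟩
  · push_cast
    have : (0 : ℤ) ≤ r := by positivity
    have : (0 : ℤ) ≤ T := by positivity
    linarith
  · have h4 := gate_sum (v - v0) d0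
    have h5 := h1.2.2
    have hL : (0 : ℤ) ≤ L := by positivity
    have hT : (0 : ℤ) ≤ T := by positivity
    push_cast
    cases k
    · have h6 : ip (v - v0) (rotR d0) < 3 * r := h3
      linarith
    · have h6 : ip (v - v0) (rotR (rotR d0)) < 3 * r - 1 := h3
      linarith

/-- the same as a finite set -/
noncomputable def dF {d0 : Pt} (h0 : d0 ∈ dirs) (v0 : Pt) (k : Bool) (T L r : ℕ) : Finset Pt :=
  (dm_finite (v0 := v0) h0 k T L r).toFinset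

lemma mem_dF {v0 d0 : Pt} (h0 : d0 ∈ dirs) {k : Bool} {T L r : ℕ} {v : Pt} :
    v ∈ dF h0 v0 k T L r ↔ v ∈ dm v0 d0 k T L r := by
  unfold dF
  rw [Set.Finite.mem_toFinset]

lemma dF_coe {v0 d0 : Pt} (h0 : d0 ∈ dirs) (k : Bool) (T L r : ℕ) :
    ((dF h0 v0 k T L r : Finset Pt) : Set Pt) = dm v0 d0 k T L r := by
  unfold dF
  rw [Set.Finite.coe_toFinset]

lemma dm_start {v0 d0 : Pt} (h0 : d0 ∈ dirs) (k : Bool) {T L r : ℕ} (hT : 1 ≤ T) (hL : 1 ≤ L) (hr : 1 ≤ r) :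
    v0 + d0 ∈ dm v0 d0 k T L r := by
  have e : v0 + d0 - v0 = d0 := by abel
  have hT' : (1 : ℤ) ≤ T := by exact_mod_cast hT
  have hL' : (1 : ℤ) ≤ L := by exact_mod_cast hL
  have hr' : (1 : ℤ) ≤ r := by exact_mod_cast hr
  refine ⟨⟨Or.inr (cl_add v0 d0), ?_, ?_⟩, ?_, ?_⟩
  · rw [e, ip_self_dir h0]
    norm_num
  · rw [e, ip_self_dir h0]
    linarith
  · rw [e, ip_rotL_self h0]
    linarith
  · rw [e, gn_d0 h0 k]
    cases k
    · show (1 : ℤ) < 3 * r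
      linarith
    · show (-1 : ℤ) < 3 * r - 1
      linarith

lemma dm_good {v0 d0 : Pt} (h0 : d0 ∈ dirs) (k : Bool) {T L r : ℕ} (hT : 1 ≤ T) (hL : 1 ≤ L) (hr : 1 ≤ r) :
    GoodDom (dF h0 v0 k T L r) v0 d0 := by
  apply polygon_good h0 (dmS v0 d0 k T L r) (dmS_side h0 k T L r) (by simp [dmS])
  · intro v
    rw [mem_dF, dmS_iff h0]
  · rw [mem_dF]
    exact dm_start h0 k hT hL hr

/-- the exits -/
lemma dm_exit {v0 d0 : Pt} (h0 : d0 ∈ dirs) (k : Bool) {T L r : ℕ} (hT : 1 ≤ T) (hL : 1 ≤ L) (hr : 1 ≤ r)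
    {t : List Bool} (ht : t ∈ exits (dF h0 v0 k T L r) v0 d0) :
    (dx d0 t t.length = -d0 ∧ ip (tip v0 d0 t - v0) d0 = 0) ∨
    (dx d0 t t.length = d0 ∧ ip (tip v0 d0 t - v0) d0 = 3 * T + 2) ∨
    (dx d0 t t.length = rotL d0 ∧ ip (tip v0 d0 t - v0) (rotL d0) = 3 * L) ∨
    (dx d0 t t.length = gn k d0 ∧ ip (tip v0 d0 t - v0) (gn k d0) = gc k r) := by
  obtain ⟨ha, ho⟩ := mem_exits.1 ht
  have hs : Saw (dm v0 d0 k T L r) v0 d0 t := by
    rw [← dF_coe h0 k T L r]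
    exact saw_coe.2 ha
  rw [mem_dF] at ho
  obtain ⟨s, hsS, h1, h2⟩ := CB.poly_exit h0 (dmS_side h0 k T L r) (dmS_iff h0 k T L r) (dm_start h0 k hT hL hr) hs ho
  rcases hsS with rfl | rfl | rfl | rfl
  · left
    refine ⟨h1, ?_⟩
    simp only [] at h2
    rw [ip_neg_right, ← ip_neg_left, neg_sub] at h2
    exact h2
  · right
    left
    refine ⟨h1, ?_⟩
    simp only [] at h2
    have : v0 + d0 + (T : ℤ) • (d0 + rotL d0) - tip v0 d0 t = d0 + (T : ℤ) • (d0 + rotL d0) - (tip v0 d0 t - v0) := by abel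
    rw [this, ip_sub_left, ip_add_left, ip_smul_left, ip_add_left, ip_self_dir h0, ip_comm (rotL d0), ip_rotL_self h0] at h2
    linarith
  · right
    right
    left
    refine ⟨h1, ?_⟩
    simp only [] at h2
    have : v0 + (L : ℤ) • (d0 + rotL d0) - tip v0 d0 t = (L : ℤ) • (d0 + rotL d0) - (tip v0 d0 t - v0) := by abel
    rw [this, ip_sub_left, ip_smul_left, ip_add_left, ip_rotL_self h0, ip_rotL_rotL h0] at h2
    linarith
  · right
    right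
    right
    refine ⟨h1, ?_⟩
    simp only [] at h2
    rw [gb_ip h0] at h2
    linarith

/-- the winding at the gate -/
def gw (k : Bool) : ℤ := if k then -2 else -1

lemma dm_wind {v0 d0 : Pt} (h0 : d0 ∈ dirs) (k : Bool) {T L r : ℕ} (hT : 1 ≤ T) (hL : 1 ≤ L) (hr : 1 ≤ r)
    {t : List Bool} (ht : t ∈ exits (dF h0 v0 k T L r) v0 d0) : -3 ≤ wind t ∧ wind t ≤ 3 := by
  rcases (dm_good h0 k hT hL hr).wind_cases ht with h | h | h | h | h | h | h <;> omega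

lemma dm_wind_gate {v0 d0 : Pt} (h0 : d0 ∈ dirs) (k : Bool) {T L r : ℕ} (hT : 1 ≤ T) (hL : 1 ≤ L) (hr : 1 ≤ r)
    {t : List Bool} (ht : t ∈ exits (dF h0 v0 k T L r) v0 d0) (hd : dx d0 t t.length = gn k d0) : wind t = gw k := by
  obtain ⟨⟨a1, a2, a3, a4, a5⟩, ⟨b1, b2, b3, b4⟩, ⟨c1, c2, c3⟩, ⟨e1, e2⟩, f1⟩ := dirs_distinct d0 h0
  rcases (dm_good h0 k hT hL hr).wind ht with ⟨hd', hw⟩ | ⟨hd', hw⟩ | ⟨hd', hw⟩ | ⟨hd', hw⟩ | ⟨hd', hw⟩ | ⟨hd', _⟩ <;>
    rw [hd] at hd' <;> cases k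
  · exact absurd hd' a2
  · exact absurd hd' a4
  · exact absurd hd' b1
  · exact absurd hd' b3
  · exact hw
  · exact absurd hd' c2
  · exact absurd hd'.symm c1
  · exact absurd hd' e1
  · exact absurd hd'.symm c2
  · exact hw
  · exact absurd hd'.symm c3
  · exact absurd hd'.symm f1

lemma dm_wind_top {v0 d0 : Pt} (h0 : d0 ∈ dirs) (k : Bool) {T L r : ℕ} (hT : 1 ≤ T) (hL : 1 ≤ L) (hr : 1 ≤ r)
    {t : List Bool} (ht : t ∈ exits (dF h0 v0 k T L r) v0 d0) (hd : dx d0 t t.length = d0) : wind t = 0 := by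
  obtain ⟨⟨a1, a2, a3, a4, a5⟩, ⟨b1, b2, b3, b4⟩, ⟨c1, c2, c3⟩, ⟨e1, e2⟩, f1⟩ := dirs_distinct d0 h0
  rcases (dm_good h0 k hT hL hr).wind ht with ⟨hd', hw⟩ | ⟨hd', hw⟩ | ⟨hd', hw⟩ | ⟨hd', hw⟩ | ⟨hd', hw⟩ | ⟨hd', _⟩ <;>
    rw [hd] at hd'
  · exact hw
  · exact absurd hd'.symm a1
  · exact absurd hd'.symm a2
  · exact absurd hd'.symm a3
  · exact absurd hd'.symm a4
  · exact absurd hd'.symm a5

end Tube

end HexObs
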