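import Pool.Agent.HexTube.Rec

/-!
Exponential decay in the strip, normalised by the bridge weight.
-/

set_option autoImplicit false

namespace HexObs

open Complex Finset ENNReal

namespace Tube

/-- the decay factor -/
noncomputable def q0 : ℝ := 2 - Real.sqrt 2

lemma sqrt2_bounds : 1.41421 < Real.sqrt 2 ∧ Real.sqrt 2 < 1.41422 := by
  constructor
  · rw [Real.lt_sqrt (by norm_num)]
    norm_num
  · rw [Real.sqrt_lt' (by norm_num)]
    norm_num

lemma q0_pos : 0 < q0 := by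
  unfold q0
  linarith [sqrt2_bounds.2]

lemma q0_lt : q0 < 0.5858 := by
  unfold q0
  linarith [sqrt2_bounds.1]

lemma q0_gt : 0.5857 < q0 := by
  unfold q0
  linarith [sqrt2_bounds.2]

lemma cos_two : Real.cos (Real.pi / 4) = Real.sqrt 2 / 2 := Real.cos_pi_div_four

lemma trig3 : Real.cos (3 * Real.pi / 8) = q0 * Real.cos (Real.pi / 8) * Real.cos (Real.pi / 4) := by
  have h1 : Real.cos (3 * Real.pi / 8) = Real.cos (Real.pi / 4) * Real.cos (Real.pi / 8) -
      Real.sin (Real.pi / 4) * Real.sin (Real.pi / 8) := by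
    rw [← Real.cos_add]
    congr 1
    ring
  have h2 : Real.sin (Real.pi / 4) = 2 * Real.sin (Real.pi / 8) * Real.cos (Real.pi / 8) := by
    rw [← Real.sin_two_mul]
    congr 1
    ring
  have h3 : Real.cos (Real.pi / 4) = 2 * Real.cos (Real.pi / 8) ^ 2 - 1 := by
    rw [← Real.cos_two_mul]
    congr 1
    ring
  have h4 : Real.sin (Real.pi / 4) = Real.sqrt 2 / 2 := Real.sin_pi_div_four
  have h5 : Real.cos (Real.pi / 4) = Real.sqrt 2 / 2 := Real.cos_pi_div_four
  have hc := cos_pos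
  have hs : Real.sin (Real.pi / 8) = (Real.sqrt 2 - 1) * Real.cos (Real.pi / 8) := by
    have h6 : 2 * Real.cos (Real.pi / 8) * (Real.sin (Real.pi / 8) - (Real.sqrt 2 - 1) * Real.cos (Real.pi / 8)) = 0 := by
      have h7 : Real.cos (Real.pi / 8) ^ 2 = (1 + Real.sqrt 2 / 2) / 2 := by linarith
      have h8 : 2 * Real.sin (Real.pi / 8) * Real.cos (Real.pi / 8) = Real.sqrt 2 / 2 := by linarith
      have h9 : Real.sqrt 2 * Real.sqrt 2 = 2 := Real.mul_self_sqrt (by norm_num)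
      calc 2 * Real.cos (Real.pi / 8) * (Real.sin (Real.pi / 8) - (Real.sqrt 2 - 1) * Real.cos (Real.pi / 8))
          = 2 * Real.sin (Real.pi / 8) * Real.cos (Real.pi / 8) - 2 * (Real.sqrt 2 - 1) * Real.cos (Real.pi / 8) ^ 2 := by ring
        _ = 0 := by
          rw [h8, h7]
          linear_combination (-1 / 2 : ℝ) * h9
    rcases mul_eq_zero.1 h6 with h | h
    · exfalso
      linarith
    · linarith
  rw [h1, h4, h5, hs]
  unfold q0
  ring

lemma c2_pos : 0 < Real.cos (Real.pi / 4) := by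
  rw [cos_two]
  positivity

lemma abs1 : |Real.pi / 8| ≤ Real.pi / 8 := by
  rw [abs_of_pos (by positivity)]

lemma abs2 : |-(Real.pi / 8)| ≤ Real.pi / 8 := by
  rw [abs_neg]
  exact abs1

section

variable {d0 : Pt} (h0 : d0 ∈ dirs) (v0 : Pt)

/-- C1 z' ≤ z -/
lemma st1 {T L r : ℕ} (hT : 1 ≤ T) (hL : 1 ≤ L) (hr : 1 ≤ r) :
    Real.cos (Real.pi / 8) * wS (gE h0 v0 true T L r) ≤ wS (gE h0 v0 false T L r) := by
  have h := gate_step h0 v0 (k := false) (k' := true) (by decide) hT hL hr hr (dF_sub1 h0 v0 T L r) abs1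
  have e1 : (gw true : ℝ) * (Real.pi / 8) + Real.pi / 8 = -(Real.pi / 8) := by
    show ((-2 : ℤ) : ℝ) * (Real.pi / 8) + Real.pi / 8 = _
    push_cast
    ring
  have e2 : (gw false : ℝ) * (Real.pi / 8) + Real.pi / 8 = 0 := by
    show ((-1 : ℤ) : ℝ) * (Real.pi / 8) + Real.pi / 8 = _
    push_cast
    ring
  rw [e1, e2, Real.cos_neg, Real.cos_zero, one_mul] at h
  exact h

/-- C2 z(r+T) ≤ C3 z' -/
lemma st2 {T L r : ℕ} (hT : 1 ≤ T) (hL : 1 ≤ L) (hr : 1 ≤ r) :
    Real.cos (Real.pi / 4) * wS (gE h0 v0 false T L (r + T)) ≤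
      Real.cos (3 * Real.pi / 8) * wS (gE h0 v0 true T L r) := by
  have h := gate_step h0 v0 (k := true) (k' := false) (by decide) hT hL hr (r' := r + T) (by omega)
    (dF_sub2 h0 v0 le_rfl) abs2
  have e1 : (gw true : ℝ) * (Real.pi / 8) + -(Real.pi / 8) = -(3 * Real.pi / 8) := by
    show ((-2 : ℤ) : ℝ) * (Real.pi / 8) + -(Real.pi / 8) = _
    push_cast
    ring
  have e2 : (gw false : ℝ) * (Real.pi / 8) + -(Real.pi / 8) = -(Real.pi / 4) := by
    show ((-1 : ℤ) : ℝ) * (Real.pi / 8) + -(Real.pi / 8) = _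
    push_cast
    ring
  rw [e1, e2, Real.cos_neg, Real.cos_neg] at h
  exact h

/-- one period of the strip costs a factor q0 -/
lemma z_shift {T L r : ℕ} (hT : 1 ≤ T) (hL : 1 ≤ L) (hr : 1 ≤ r) :
    wS (gE h0 v0 false T L (r + T)) ≤ q0 * wS (gE h0 v0 false T L r) := by
  have h1 := st1 h0 v0 hT hL hr
  have h2 := st2 h0 v0 hT hL hr
  rw [trig3] at h2
  have h3 := c2_pos
  have h4 := q0_pos
  have h5 : Real.cos (Real.pi / 4) * wS (gE h0 v0 false T L (r + T)) ≤
      Real.cos (Real.pi / 4) * (q0 * wS (gE h0 v0 false T L r)) := by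
    calc _ ≤ q0 * Real.cos (Real.pi / 8) * Real.cos (Real.pi / 4) * wS (gE h0 v0 true T L r) := h2
      _ = Real.cos (Real.pi / 4) * (q0 * (Real.cos (Real.pi / 8) * wS (gE h0 v0 true T L r))) := by ring
      _ ≤ _ := mul_le_mul_of_nonneg_left (mul_le_mul_of_nonneg_left h1 h4.le) h3.le
  exact le_of_mul_le_mul_left h5 h3

/-- the same for the walks that leave the low strip -/
lemma p_shift [DecidableEq (List Bool)] {T h L r : ℕ} (hh1 : 1 ≤ h) (hh : h ≤ T) (hL : 1 ≤ L) (hr : 1 ≤ r) :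
    wS (gP h0 v0 false T h L (r + T)) ≤ q0 * wS (gP h0 v0 false T h L r) + wS (gE h0 v0 false h L r) := by
  have hT : 1 ≤ T := le_trans hh1 hh
  have h1 := gate_step4 h0 v0 (k := false) (k' := true) (by decide) hh1 hh hL hr hr (dF_sub1 h0 v0 T L r)
    (dF_sub1 h0 v0 h L r) abs1 abs2 (Real.cos_neg _).symm
  have h2 := gate_step4 h0 v0 (k := true) (k' := false) (by decide) hh1 hh hL hr (r' := r + T) (by omega)
    (dF_sub2 h0 v0 le_rfl) (dF_sub2 h0 v0 hh) abs2 abs2 rfl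
  have h3 := st1 h0 v0 hh1 hL hr
  have e1 : (gw true : ℝ) * (Real.pi / 8) + Real.pi / 8 = -(Real.pi / 8) := by
    show ((-2 : ℤ) : ℝ) * (Real.pi / 8) + Real.pi / 8 = _
    push_cast
    ring
  have e2 : (gw false : ℝ) * (Real.pi / 8) + Real.pi / 8 = 0 := by
    show ((-1 : ℤ) : ℝ) * (Real.pi / 8) + Real.pi / 8 = _
    push_cast
    ring
  have e3 : (gw true : ℝ) * (Real.pi / 8) + -(Real.pi / 8) = -(3 * Real.pi / 8) := by
    show ((-2 : ℤ) : ℝ) * (Real.pi / 8) + -(Real.pi / 8) = _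
    push_cast
    ring
  have e4 : (gw false : ℝ) * (Real.pi / 8) + -(Real.pi / 8) = -(Real.pi / 4) := by
    show ((-1 : ℤ) : ℝ) * (Real.pi / 8) + -(Real.pi / 8) = _
    push_cast
    ring
  rw [e1, e2, e4, Real.cos_neg, Real.cos_zero, one_mul, Real.cos_neg] at h1
  rw [e3, e4, Real.cos_neg, Real.cos_neg, trig3] at h2
  have hc2 := c2_pos
  have hq := q0_pos
  set P := wS (gP h0 v0 false T h L r)
  set P' := wS (gP h0 v0 true T h L r)
  set P2 := wS (gP h0 v0 false T h L (r + T))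
  set Z := wS (gE h0 v0 false h L r)
  set Z' := wS (gE h0 v0 true h L r)
  have h5 : Real.cos (Real.pi / 4) * P2 ≤ Real.cos (Real.pi / 4) * (q0 * P + Z) := by
    have hid : q0 * (1 + Real.cos (Real.pi / 4)) = 1 := by
      rw [cos_two]
      unfold q0
      have h9 : Real.sqrt 2 * Real.sqrt 2 = 2 := Real.mul_self_sqrt (by norm_num)
      linear_combination (-1 / 2 : ℝ) * h9
    calc Real.cos (Real.pi / 4) * P2 ≤ q0 * Real.cos (Real.pi / 8) * Real.cos (Real.pi / 4) * P' +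
          q0 * Real.cos (Real.pi / 8) * Real.cos (Real.pi / 4) * Z' := h2
      _ = Real.cos (Real.pi / 4) * (q0 * (Real.cos (Real.pi / 8) * P' + Real.cos (Real.pi / 8) * Z')) := by ring
      _ ≤ Real.cos (Real.pi / 4) * (q0 * (P + Real.cos (Real.pi / 4) * Z + Z)) := by
          apply mul_le_mul_of_nonneg_left _ hc2.le
          apply mul_le_mul_of_nonneg_left _ hq.le
          linarith
      _ = Real.cos (Real.pi / 4) * (q0 * P + q0 * (1 + Real.cos (Real.pi / 4)) * Z) := by ring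
      _ = Real.cos (Real.pi / 4) * (q0 * P + Z) := by rw [hid, one_mul]
  exact le_of_mul_le_mul_left h5 hc2

/-- gates of the same kind -/
lemma z_anti {T L r r' : ℕ} (hT : 1 ≤ T) (hL : 1 ≤ L) (hr : 1 ≤ r) (hrr : r ≤ r') :
    wS (gE h0 v0 false T L r') ≤ wS (gE h0 v0 false T L r) := by
  classical
  rcases Nat.eq_or_lt_of_le hrr with rfl | hlt
  · exact le_rfl
  have hs : dF h0 v0 false T L r ⊆ dF h0 v0 false T L r' := by
    intro v hv
    rw [mem_dF] at hv ⊢
    obtain ⟨h1, h2, h3⟩ := hv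
    have h6 : ip (v - v0) (rotR d0) < 3 * r := h3
    have h7 : (r : ℤ) ≤ r' := by exact_mod_cast hrr
    refine ⟨h1, h2, ?_⟩
    show ip (v - v0) (rotR d0) < 3 * r'
    linarith
  have h1 := two_dom h0 (dF_half h0 v0 false T L r) (dF_half h0 v0 false T L r') (Real.pi / 8)
  have hr' : 1 ≤ r' := by omega
  have h2 : ∑ t ∈ gE h0 v0 false T L r', fb (Real.pi / 8) t ≤
      ∑ t ∈ exits (dF h0 v0 false T L r') v0 d0 \ exits (dF h0 v0 false T L r) v0 d0, fb (Real.pi / 8) t := by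
    apply Finset.sum_le_sum_of_subset_of_nonneg
    · intro t ht
      obtain ⟨h3, h4⟩ := Finset.mem_filter.1 ht
      rw [Finset.mem_sdiff]
      refine ⟨h3, fun h5 => ?_⟩
      obtain ⟨⟨a1, a2, a3, a4, a5⟩, ⟨b1, b2, b3, b4⟩, ⟨c1, c2, c3⟩, ⟨e1, e2⟩, f1⟩ := dirs_distinct d0 h0
      have h4' : dx d0 t t.length = rotR d0 := h4
      have key : ip (tip v0 d0 t - v0) (gn false d0) = gc false r := by
        rcases dm_exit h0 false hT hL hr h5 with ⟨hd, _⟩ | ⟨hd, _⟩ | ⟨hd, _⟩ | ⟨_, hi⟩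
        · exact absurd (hd.symm.trans h4') c3
        · exact absurd (h4'.symm.trans hd) a2
        · exact absurd (h4'.symm.trans hd) b1
        · exact hi
      have key' : ip (tip v0 d0 t - v0) (gn false d0) = gc false r' := by
        rcases dm_exit h0 false hT hL hr' h3 with ⟨hd, _⟩ | ⟨hd, _⟩ | ⟨hd, _⟩ | ⟨_, hi⟩
        · exact absurd (hd.symm.trans h4') c3
        · exact absurd (h4'.symm.trans hd) a2
        · exact absurd (h4'.symm.trans hd) b1
        · exact hi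
      rw [key] at key'
      have k2 : (3 * r : ℤ) = 3 * r' := key'
      omega
    · intro t ht _
      exact fb_nonneg abs1 (dm_wind h0 false hT hL hr' (Finset.mem_sdiff.1 ht).1)
  have h3 : ∑ t ∈ exits (dF h0 v0 false T L r) v0 d0 \ exits (dF h0 v0 false T L r') v0 d0, fb (Real.pi / 8) t ≤
      ∑ t ∈ gE h0 v0 false T L r, fb (Real.pi / 8) t := by
    apply Finset.sum_le_sum_of_subset_of_nonneg
    · intro t ht
      obtain ⟨h4, h5⟩ := Finset.mem_sdiff.1 ht
      refine Finset.mem_filter.2 ⟨h4, exit_gate h0 v0 (k' := false) (r' := r') hT hL hr h4 ?_⟩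
      by_contra hcon
      obtain ⟨ha, _⟩ := mem_exits.1 h4
      exact h5 (mem_exits.2 ⟨⟨fun i h6 h7 => hs (ha.mem i h6 h7), ha.inj⟩, hcon⟩)
    · intro t ht _
      exact fb_nonneg abs1 (dm_wind h0 false hT hL hr (Finset.mem_filter.1 ht).1)
  rw [sum_fb_const (gE_wind h0 v0 false hT hL hr')] at h2
  rw [sum_fb_const (gE_wind h0 v0 false hT hL hr)] at h3
  have e2 : (gw false : ℝ) * (Real.pi / 8) + Real.pi / 8 = 0 := by
    show ((-1 : ℤ) : ℝ) * (Real.pi / 8) + Real.pi / 8 = _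
    push_cast
    ring
  rw [e2, Real.cos_zero, one_mul] at h2 h3
  linarith

lemma z_le_two {T L r : ℕ} (hT : 1 ≤ T) (hL : 1 ≤ L) (hr : 1 ≤ r) : wS (gE h0 v0 false T L r) ≤ 2 := by
  have hg := (dm_good (v0 := v0) h0 false hT hL hr).identity
  have e : Ex (dF h0 v0 false T L r) v0 d0 (rotR d0) = wS (gE h0 v0 false T L r) := rfl
  rw [e] at hg
  have n1 := Ex_nonneg (dF h0 v0 false T L r) v0 d0 d0
  have n2 := Ex_nonneg (dF h0 v0 false T L r) v0 d0 (rotL d0)
  have n3 := Ex_nonneg (dF h0 v0 false T L r) v0 d0 (rotL (rotL d0))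
  have n4 := Ex_nonneg (dF h0 v0 false T L r) v0 d0 (rotR (rotR d0))
  have n5 := Ex_nonneg (dF h0 v0 false T L r) v0 d0 (-d0)
  have c1 : (1 : ℝ) / 2 ≤ Real.cos (Real.pi / 8) := by
    rw [← Real.cos_pi_div_three]
    apply Real.cos_le_cos_of_nonneg_of_le_pi (by positivity)
    · linarith [Real.pi_pos]
    · linarith [Real.pi_pos]
  have c2 := c2_pos
  have c3 := cos3_pos
  have w0 := wS_nonneg (gE h0 v0 false T L r)
  have hp := mul_nonneg c2.le (add_nonneg n3 n4)
  have hp2 := mul_nonneg c3.le n5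
  have hp3 := mul_nonneg (by linarith : (0 : ℝ) ≤ Real.cos (Real.pi / 8)) n2
  nlinarith

end

end Tube

end HexObs
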