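import Pool.Agent.HexTube.Lat
import Pool.Agent.W47.Final

/-!
LAT1: the weight of the walks of the strip of height T that reach distance m T is at most C q^m times the bridge
weight.
-/

set_option autoImplicit false

namespace HexObs

open Complex Finset ENNReal

namespace Tube

lemma upm : up ∈ dirs := by decide

/-- doubling -/
lemma bT_double {h T : ℕ} (hh : 1 ≤ h) (hT : h ≤ T) : (h : ℝ) * bT h ≤ (2 + CW) * (T * bT T) := by
  have h1 := W47_final.1 T (le_trans hh hT)
  have h2 : (h : ℝ) * bT h ≤ ∑ t ∈ Finset.Icc 1 h, bT t := by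
    have h3 : ∀ t ∈ Finset.Icc 1 h, bT h ≤ bT t := by
      intro t ht
      obtain ⟨a, b⟩ := Finset.mem_Icc.1 ht
      have mono : ∀ k : ℕ, bT (t + k) ≤ bT t := by
        intro k
        induction k with
        | zero => exact le_rfl
        | succ k ih =>
          have h0 : 1 ≤ t + k := Nat.le_add_right_of_le a
          exact (bT_antitone h0).trans ih
      have := mono (h - t)
      rwa [Nat.add_sub_cancel' b] at this
    have h4 := Finset.card_nsmul_le_sum (Finset.Icc 1 h) (fun t => bT t) (bT h) h3
    simpa [Nat.card_Icc, nsmul_eq_mul] using h4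
  have h3 : ∑ t ∈ Finset.Icc 1 h, bT t ≤ ∑ t ∈ Finset.Icc 1 T, bT t := by
    apply Finset.sum_le_sum_of_subset_of_nonneg
    · intro t ht
      obtain ⟨a, b⟩ := Finset.mem_Icc.1 ht
      exact Finset.mem_Icc.2 ⟨a, by omega⟩
    · intro t _ _
      exact bT_nonneg t
  linarith

lemma CW_le : CW ≤ 40 := by
  unfold CW
  have h1 := sqrt2_bounds
  have h2 : (0.41421 : ℝ) ≤ Real.sqrt 2 - 1 := by linarith [h1.1]
  have h3 : (0.07106 : ℝ) ≤ (Real.sqrt 2 - 1) ^ 3 := by
    calc (0.07106 : ℝ) ≤ 0.41421 ^ 3 := by norm_num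
      _ ≤ _ := by gcongr
  rw [div_le_iff₀ (by linarith)]
  nlinarith [h1.2]

lemma CW_nonneg : 0 ≤ CW := by
  unfold CW
  have h1 := sqrt2_bounds
  have h2 : (0 : ℝ) ≤ Real.sqrt 2 - 1 := by linarith [h1.1]
  positivity

lemma bT_twenty {T : ℕ} (hT : 20 ≤ T) : bT (T / 20) ≤ 1680 * bT T := by
  have hh : 1 ≤ T / 20 := by omega
  have h1 := bT_double hh (Nat.div_le_self T 20)
  have h2 : (T : ℝ) ≤ 40 * ((T / 20 : ℕ) : ℝ) := by
    have : T ≤ 40 * (T / 20) := by omega
    exact_mod_cast this
  have h3 : (0 : ℝ) < ((T / 20 : ℕ) : ℝ) := by exact_mod_cast hh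
  have h4 := bT_nonneg T
  have h5 := CW_le
  have h6 := CW_nonneg
  have h7 : ((T / 20 : ℕ) : ℝ) * bT (T / 20) ≤ ((T / 20 : ℕ) : ℝ) * (1680 * bT T) := by
    calc _ ≤ (2 + CW) * (T * bT T) := h1
      _ ≤ (2 + 40) * ((40 * ((T / 20 : ℕ) : ℝ)) * bT T) := by gcongr
      _ = _ := by ring
  exact le_of_mul_le_mul_left h7 h3

/-- the pure recursion -/
lemma rec_seq {q X α : ℝ} (hq0 : 0 < q) (hq1 : q < 1) (a : ℕ → ℝ) (h1 : a 1 ≤ q * α)
    (hrec : ∀ m, 1 ≤ m → a (m + 1) ≤ q * a m + X * q ^ (2 * m)) :
    ∀ m, 1 ≤ m → a m ≤ q ^ m * (α + X / (1 - q) * (1 - q ^ (m - 1))) := by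
  intro m hm
  induction m, hm using Nat.le_induction with
  | base =>
    simpa using h1
  | succ m hm ih =>
    have h2 := hrec m hm
    have h3 : q * a m ≤ q * (q ^ m * (α + X / (1 - q) * (1 - q ^ (m - 1)))) := mul_le_mul_of_nonneg_left ih hq0.le
    have e : q ^ m = q * q ^ (m - 1) := by
      rw [← pow_succ', Nat.sub_add_cancel hm]
    have e2 : q ^ (2 * m) = q ^ m * q ^ m := by
      rw [two_mul, pow_add]
    have hne : 1 - q ≠ 0 := by linarith
    have e3 : q * (q ^ m * (α + X / (1 - q) * (1 - q ^ (m - 1)))) + X * q ^ (2 * m) =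
        q ^ (m + 1) * (α + X / (1 - q) * (1 - q ^ (m + 1 - 1))) := by
      rw [e2, Nat.add_sub_cancel, pow_succ]
      rw [e]
      field_simp
      ring
    linarith

/-- in the finite domains -/
theorem lat_fin : ∀ T : ℕ, 1 ≤ T → ∀ m L : ℕ, 1 ≤ m → 1 ≤ L →
    wS (gE upm oo false T L (m * T)) ≤ 6000 * q0 ^ m * bT T := by
  classical
  intro T
  induction T using Nat.strong_induction_on with
  | _ T ih =>
    intro hT m L hm hL
    have hq := q0_pos
    have hql := q0_lt
    have hqg := q0_gt
    rcases Nat.lt_or_ge T 20 with hs | hs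
    · -- small heights
      have h1 : ∀ m, 1 ≤ m → wS (gE upm oo false T L (m * T)) ≤ 2 * q0 ^ (m - 1) := by
        intro m hm
        induction m, hm using Nat.le_induction with
        | base =>
          rw [one_mul]
          simpa using z_le_two upm oo hT hL hT
        | succ m hm ih2 =>
          have h2 := z_shift upm oo (T := T) (L := L) (r := m * T) hT hL (Nat.mul_pos hm hT)
          rw [add_one_mul]
          have e : q0 ^ (m + 1 - 1) = q0 * q0 ^ (m - 1) := by
            rw [← pow_succ', Nat.sub_add_cancel hm, Nat.add_sub_cancel]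
          rw [e]
          calc _ ≤ q0 * wS (gE upm oo false T L (m * T)) := h2
            _ ≤ q0 * (2 * q0 ^ (m - 1)) := mul_le_mul_of_nonneg_left ih2 hq.le
            _ = _ := by ring
      have h2 := h1 m hm
      have h3 := bT_lower hT
      have h4 : (1 : ℝ) / 22 ≤ bT T := by
        refine le_trans ?_ h3
        have : (T : ℝ) ≤ 19 := by
          have : T ≤ 19 := by omega
          exact_mod_cast this
        have hT0 : (0 : ℝ) ≤ T := by positivity
        apply one_div_le_one_div_of_le
        · linarith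
        · linarith
      have e : q0 ^ m = q0 * q0 ^ (m - 1) := by
        rw [← pow_succ', Nat.sub_add_cancel hm]
      rw [e]
      have h5 : 0 < q0 ^ (m - 1) := pow_pos hq _
      have h6 : (0.5857 : ℝ) * (1 / 22) ≤ q0 * bT T := by
        apply mul_le_mul hqg.le h4 (by norm_num) hq.le
      nlinarith
    · -- large heights
      obtain ⟨h, hh⟩ : ∃ h, h = T / 20 := ⟨_, rfl⟩
      have hh1 : 1 ≤ h := by omega
      have hhT : h < T := by omega
      have hdb : bT h ≤ 1680 * bT T := by
        rw [hh]
        exact bT_twenty hs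
      have hb := bT_pos hT
      have ihh := ih h hhT hh1
      -- low gates
      have zh : ∀ j, 1 ≤ j → wS (gE upm oo false h L (j * T)) ≤ 6000 * q0 ^ (20 * j) * (1680 * bT T) := by
        intro j hj
        have h1 : 20 * j * h ≤ j * T := by
          have : 20 * h ≤ T := by omega
          calc 20 * j * h = j * (20 * h) := by ring
            _ ≤ j * T := Nat.mul_le_mul_left j this
        have h2 := z_anti upm oo (T := h) (L := L) hh1 hL (r := 20 * j * h)
          (Nat.mul_pos (by omega) hh1) h1
        have h3 := ihh (20 * j) L (by omega) hL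
        calc _ ≤ _ := h2
          _ ≤ _ := h3
          _ ≤ _ := by
            apply mul_le_mul_of_nonneg_left hdb
            have := pow_pos hq (20 * j)
            positivity
      obtain ⟨a, ha⟩ : ∃ a : ℕ → ℝ, a = fun j => wS (gP upm oo false T h L (j * T)) := ⟨_, rfl⟩
      have hfirst : a 1 ≤ q0 * (1680 / q0 * bT T) := by
        rw [ha]
        show wS (gP upm oo false T h L (1 * T)) ≤ _
        rw [one_mul]
        have h1 := gate_first upm oo (T := T) (L := L) hh1 hhT.le hL hT
        have h2 : Ex (dF upm oo false h L T) oo up up ≤ bT h := by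
          have h3 : ENNReal.ofReal (Ex (dF upm oo false h L T) oo up up) ≤ BT h := by
            rw [← gf_out_coe, ← gf_B upm oo h]
            apply gf_mono
            rintro t ⟨s1, s2, s3⟩
            rw [dF_coe] at s1
            have ht : t ∈ exits (dF upm oo false h L T) oo up := by
              rw [mem_exits]
              refine ⟨⟨fun i hi hl => ?_, s1.inj⟩, s2⟩
              rw [mem_dF]
              exact s1.mem i hi hl
            refine ⟨s1.mono (fun v hv => hv.1), ?_, s3⟩
            rintro ⟨_, c2, c3⟩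
            obtain ⟨⟨a1, a2, a3, a4, a5⟩, _⟩ := dirs_distinct up upm
            rcases dm_exit upm false hh1 hL hT ht with ⟨hd, _⟩ | ⟨_, hi⟩ | ⟨hd, _⟩ | ⟨hd, _⟩
            · exact a5 (hd.symm.trans s3)
            · omega
            · exact a1 (hd.symm.trans s3)
            · exact a2 (hd.symm.trans s3)
          have h4 := ENNReal.toReal_mono (BT_ne_top hh1) h3
          rwa [ENNReal.toReal_ofReal (Ex_nonneg _ _ _ _)] at h4
        have hc : Real.cos (Real.pi / 8) ≤ 1 := Real.cos_le_one _
        have hE := Ex_nonneg (dF upm oo false h L T) oo up up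
        have e : q0 * (1680 / q0 * bT T) = 1680 * bT T := by
          field_simp
        rw [e]
        nlinarith [cos_pos]
      have hrec : ∀ j, 1 ≤ j → a (j + 1) ≤ q0 * a j + (6000 * q0 ^ 18 * (1680 * bT T)) * q0 ^ (2 * j) := by
        intro j hj
        rw [ha]
        show wS (gP upm oo false T h L ((j + 1) * T)) ≤ q0 * wS (gP upm oo false T h L (j * T)) + _
        have h1 := p_shift upm oo (T := T) (L := L) (r := j * T) hh1 hhT.le hL (Nat.mul_pos hj hT)
        rw [add_one_mul]
        have h2 := zh j hj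
        have h3 : q0 ^ (20 * j) ≤ q0 ^ 18 * q0 ^ (2 * j) := by
          rw [← pow_add]
          apply pow_le_pow_of_le_one hq.le (by linarith)
          omega
        have h4 : 6000 * q0 ^ (20 * j) * (1680 * bT T) ≤ (6000 * q0 ^ 18 * (1680 * bT T)) * q0 ^ (2 * j) := by
          have : 0 ≤ 6000 * (1680 * bT T) := by positivity
          calc 6000 * q0 ^ (20 * j) * (1680 * bT T) = 6000 * (1680 * bT T) * q0 ^ (20 * j) := by ring
            _ ≤ 6000 * (1680 * bT T) * (q0 ^ 18 * q0 ^ (2 * j)) := mul_le_mul_of_nonneg_left h3 this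
            _ = _ := by ring
        linarith
      have hmain := rec_seq hq (by linarith) a hfirst hrec m hm
      have hsplit := gE_split upm oo false T h L (m * T)
      have hz := zh m hm
      have ham : wS (gP upm oo false T h L (m * T)) = a m := by rw [ha]
      rw [ham] at hsplit
      -- numerics
      have hq18 : q0 ^ 18 ≤ 7 / 100000 := by
        calc q0 ^ 18 ≤ 0.5858 ^ 18 := by gcongr
          _ ≤ 7 / 100000 := by norm_num
      have hqm : 0 < q0 ^ m := pow_pos hq m
      have h20 : q0 ^ (20 * m) ≤ q0 ^ m * (7 / 100000) := by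
        have h1 : q0 ^ (20 * m) ≤ q0 ^ (m + 18) := by
          apply pow_le_pow_of_le_one hq.le (by linarith)
          omega
        rw [pow_add] at h1
        exact h1.trans (mul_le_mul_of_nonneg_left hq18 hqm.le)
      have hY : 6000 * q0 ^ 18 * (1680 * bT T) / (1 - q0) * (1 - q0 ^ (m - 1)) ≤ 1800 * bT T := by
        have h1 : 1 - q0 ^ (m - 1) ≤ 1 := by linarith [pow_pos hq (m - 1)]
        have h2 : 0 ≤ 6000 * q0 ^ 18 * (1680 * bT T) / (1 - q0) := by
          apply div_nonneg
          · have := pow_pos hq 18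
            positivity
          · linarith
        calc _ ≤ 6000 * q0 ^ 18 * (1680 * bT T) / (1 - q0) * 1 := mul_le_mul_of_nonneg_left h1 h2
          _ ≤ 6000 * (7 / 100000) * (1680 * bT T) / (1 - q0) := by
            rw [mul_one]
            apply div_le_div_of_nonneg_right _ (by linarith)
            gcongr
          _ ≤ 1800 * bT T := by
            rw [div_le_iff₀ (by linarith)]
            nlinarith
      have hα : 1680 / q0 * bT T ≤ 2900 * bT T := by
        apply mul_le_mul_of_nonneg_right _ hb.le
        rw [div_le_iff₀ hq]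
        nlinarith
      have h1 : a m ≤ q0 ^ m * (4700 * bT T) := by
        refine hmain.trans (mul_le_mul_of_nonneg_left ?_ hqm.le)
        linarith
      have h2 : 6000 * q0 ^ (20 * m) * (1680 * bT T) ≤ q0 ^ m * (706 * bT T) := by
        have : 0 ≤ 6000 * (1680 * bT T) := by positivity
        calc 6000 * q0 ^ (20 * m) * (1680 * bT T) = 6000 * (1680 * bT T) * q0 ^ (20 * m) := by ring
          _ ≤ 6000 * (1680 * bT T) * (q0 ^ m * (7 / 100000)) := mul_le_mul_of_nonneg_left h20 this
          _ ≤ _ := by nlinarith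
      have h3 : q0 ^ m * (4700 * bT T) + q0 ^ m * (706 * bT T) ≤ 6000 * q0 ^ m * bT T := by nlinarith
      linarith

end Tube

end HexObs
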