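import Pool.Agent.HexTube.Dom
import Pool.Agent.HexObs.NI

/-!
Comparison of gates.
-/

set_option autoImplicit false

namespace HexObs

open Complex Finset ENNReal

namespace Tube

lemma gn_ne {k k' : Bool} (hk : k ≠ k') {d0 : Pt} (h0 : d0 ∈ dirs) :
    gn k' d0 ≠ -d0 ∧ gn k' d0 ≠ d0 ∧ gn k' d0 ≠ rotL d0 ∧ gn k' d0 ≠ gn k d0 := by
  have key : ∀ d ∈ dirs, ∀ k k' : Bool, k ≠ k' →
      (gn k' d ≠ -d ∧ gn k' d ≠ d ∧ gn k' d ≠ rotL d ∧ gn k' d ≠ gn k d) := by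
    decide
  exact key d0 h0 k k' hk

section

variable {d0 : Pt} (h0 : d0 ∈ dirs) (v0 : Pt)

lemma dF_sub1 (T L r : ℕ) : dF h0 v0 false T L r ⊆ dF h0 v0 true T L r := by
  intro v hv
  rw [mem_dF] at hv ⊢
  obtain ⟨h1, h2, h3⟩ := hv
  refine ⟨h1, h2, ?_⟩
  have h4 := gate_sum (v - v0) d0
  have h5 := h1.2.1
  have h6 : ip (v - v0) (rotR d0) < 3 * r := h3
  show ip (v - v0) (rotR (rotR d0)) < 3 * r - 1
  linarith

lemma dF_sub2 {T L r T' : ℕ} (hT : T ≤ T') : dF h0 v0 true T L r ⊆ dF h0 v0 false T L (r + T') := by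
  intro v hv
  rw [mem_dF] at hv ⊢
  obtain ⟨h1, h2, h3⟩ := hv
  refine ⟨h1, h2, ?_⟩
  have h4 := gate_sum (v - v0) d0
  have h5 := h1.2.2
  have h7 : (T : ℤ) ≤ T' := by exact_mod_cast hT
  have h6 : ip (v - v0) (rotR (rotR d0)) < 3 * r - 1 := h3
  show ip (v - v0) (rotR d0) < 3 * ((r + T' : ℕ) : ℤ)
  push_cast
  linarith

lemma dF_low (k : Bool) {T h L r : ℕ} (hh : h ≤ T) : dF h0 v0 k h L r ⊆ dF h0 v0 k T L r := by
  intro v hv
  rw [mem_dF] at hv ⊢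
  obtain ⟨⟨h1, h2, h3⟩, h4, h5⟩ := hv
  have h7 : (h : ℤ) ≤ T := by exact_mod_cast hh
  exact ⟨⟨h1, h2, by linarith⟩, h4, h5⟩

lemma dF_half (k : Bool) (T L r : ℕ) : ∀ v ∈ dF h0 v0 k T L r, 0 < ip (v - v0) d0 := by
  intro v hv
  rw [mem_dF] at hv
  exact hv.1.2.1

/-- a walk of the smaller domain that is continued leaves through the gate -/
lemma exit_gate {k k' : Bool} {T L r r' : ℕ} (hT : 1 ≤ T) (hL : 1 ≤ L) (hr : 1 ≤ r) {t : List Bool}
    (ht : t ∈ exits (dF h0 v0 k T L r) v0 d0) (htip : tip v0 d0 t ∈ dF h0 v0 k' T L r') :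
    dx d0 t t.length = gn k d0 := by
  rw [mem_dF] at htip
  obtain ⟨⟨_, h2, h3⟩, h4, _⟩ := htip
  rcases dm_exit h0 k hT hL hr ht with ⟨_, h⟩ | ⟨_, h⟩ | ⟨_, h⟩ | ⟨hd, _⟩
  · omega
  · omega
  · omega
  · exact hd

/-- total weight -/
noncomputable def wS (A : Finset (List Bool)) : ℝ := ∑ t ∈ A, xc ^ t.length

lemma wS_nonneg (A : Finset (List Bool)) : 0 ≤ wS A := Finset.sum_nonneg fun _ _ => pow_nonneg xc_pos.le _

lemma wS_mono {A B : Finset (List Bool)} (h : A ⊆ B) : wS A ≤ wS B :=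
  Finset.sum_le_sum_of_subset_of_nonneg h fun _ _ _ => pow_nonneg xc_pos.le _

/-- the exits through the gate -/
noncomputable def gE (k : Bool) (T L r : ℕ) : Finset (List Bool) :=
  (exits (dF h0 v0 k T L r) v0 d0).filter (fun t => dx d0 t t.length = gn k d0)

lemma gE_wind (k : Bool) {T L r : ℕ} (hT : 1 ≤ T) (hL : 1 ≤ L) (hr : 1 ≤ r) :
    ∀ t ∈ gE h0 v0 k T L r, wind t = gw k := fun _ ht =>
  dm_wind_gate h0 k hT hL hr (Finset.mem_filter.1 ht).1 (Finset.mem_filter.1 ht).2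

lemma sum_fb_const {A : Finset (List Bool)} {β : ℝ} {w : ℤ} (h : ∀ t ∈ A, wind t = w) :
    ∑ t ∈ A, fb β t = Real.cos (w * (Real.pi / 8) + β) * wS A := by
  unfold wS
  rw [Finset.mul_sum]
  apply Finset.sum_congr rfl
  intro t ht
  unfold fb
  rw [h t ht]

lemma cos_ok {β : ℝ} (hβ : |β| ≤ Real.pi / 8) {w : ℤ} (h : -3 ≤ w ∧ w ≤ 3) : 0 ≤ Real.cos (w * (Real.pi / 8) + β) := by
  obtain ⟨h1, h2⟩ := abs_le.1 hβ
  have h3 : (-3 : ℝ) ≤ w := by exact_mod_cast h.1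
  have h4 : (w : ℝ) ≤ 3 := by exact_mod_cast h.2
  apply Real.cos_nonneg_of_mem_Icc
  constructor <;> nlinarith [Real.pi_pos]

lemma gw_ok (k : Bool) : -3 ≤ gw k ∧ gw k ≤ 3 := by
  cases k <;> decide

/-- comparison of consecutive gates -/
lemma gate_step {k k' : Bool} (hk : k ≠ k') {T L r r' : ℕ} (hT : 1 ≤ T) (hL : 1 ≤ L) (hr : 1 ≤ r) (hr' : 1 ≤ r')
    (hs : dF h0 v0 k T L r ⊆ dF h0 v0 k' T L r') {β : ℝ} (hβ : |β| ≤ Real.pi / 8) :
    Real.cos (gw k' * (Real.pi / 8) + β) * wS (gE h0 v0 k' T L r') ≤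
      Real.cos (gw k * (Real.pi / 8) + β) * wS (gE h0 v0 k T L r) := by
  classical
  have h1 := two_dom h0 (dF_half h0 v0 k T L r) (dF_half h0 v0 k' T L r') β
  have h2 : ∑ t ∈ gE h0 v0 k' T L r', fb β t ≤
      ∑ t ∈ exits (dF h0 v0 k' T L r') v0 d0 \ exits (dF h0 v0 k T L r) v0 d0, fb β t := by
    apply Finset.sum_le_sum_of_subset_of_nonneg
    · intro t ht
      obtain ⟨h3, h4⟩ := Finset.mem_filter.1 ht
      rw [Finset.mem_sdiff]
      refine ⟨h3, fun h5 => ?_⟩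
      obtain ⟨n1, n2, n3, n4⟩ := gn_ne hk h0
      rcases dm_exit h0 k hT hL hr h5 with ⟨hd, _⟩ | ⟨hd, _⟩ | ⟨hd, _⟩ | ⟨hd, _⟩
      · exact n1 (h4.symm.trans hd)
      · exact n2 (h4.symm.trans hd)
      · exact n3 (h4.symm.trans hd)
      · exact n4 (h4.symm.trans hd)
    · intro t ht _
      exact fb_nonneg hβ (dm_wind h0 k' hT hL hr' (Finset.mem_sdiff.1 ht).1)
  have h3 : ∑ t ∈ exits (dF h0 v0 k T L r) v0 d0 \ exits (dF h0 v0 k' T L r') v0 d0, fb β t ≤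
      ∑ t ∈ gE h0 v0 k T L r, fb β t := by
    apply Finset.sum_le_sum_of_subset_of_nonneg
    · intro t ht
      obtain ⟨h4, h5⟩ := Finset.mem_sdiff.1 ht
      refine Finset.mem_filter.2 ⟨h4, exit_gate h0 v0 (k' := k') (r' := r') hT hL hr h4 ?_⟩
      by_contra hcon
      obtain ⟨ha, _⟩ := mem_exits.1 h4
      exact h5 (mem_exits.2 ⟨⟨fun i h6 h7 => hs (ha.mem i h6 h7), ha.inj⟩, hcon⟩)
    · intro t ht _
      exact fb_nonneg hβ (dm_wind h0 k hT hL hr (Finset.mem_filter.1 ht).1)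
  rw [sum_fb_const (gE_wind h0 v0 k' hT hL hr')] at h2
  rw [sum_fb_const (gE_wind h0 v0 k hT hL hr)] at h3
  linarith

/-- the exits through the gate that leave the low strip -/
noncomputable def gP [DecidableEq (List Bool)] (k : Bool) (T h L r : ℕ) : Finset (List Bool) :=
  gE h0 v0 k T L r \ exits (dF h0 v0 k h L r) v0 d0

/-- comparison of consecutive gates for the walks that leave the low strip -/
lemma gate_step4 [DecidableEq (List Bool)] {k k' : Bool} (hk : k ≠ k') {T h L r r' : ℕ} (hh1 : 1 ≤ h) (hh : h ≤ T)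
    (hL : 1 ≤ L) (hr : 1 ≤ r) (hr' : 1 ≤ r')
    (hs : dF h0 v0 k T L r ⊆ dF h0 v0 k' T L r') (hsh : dF h0 v0 k h L r ⊆ dF h0 v0 k' h L r')
    {β β' : ℝ} (hβ : |β| ≤ Real.pi / 8) (hβ' : |β'| ≤ Real.pi / 8) (hββ : Real.cos β = Real.cos β') :
    Real.cos (gw k' * (Real.pi / 8) + β) * wS (gP h0 v0 k' T h L r') ≤
      Real.cos (gw k * (Real.pi / 8) + β) * wS (gP h0 v0 k T h L r) +
      Real.cos (gw k * (Real.pi / 8) + β') * wS (gE h0 v0 k h L r) := by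
  have hT : 1 ≤ T := le_trans hh1 hh
  have hg : ∀ t, t ∈ exits (dF h0 v0 k T L r) v0 d0 → t ∈ exits (dF h0 v0 k h L r) v0 d0 →
      tip v0 d0 t ∈ dF h0 v0 k' T L r' → tip v0 d0 t ∈ dF h0 v0 k' h L r' := by
    intro t ht1 ht2 ht3
    have hd := exit_gate h0 v0 hT hL hr ht1 ht3
    have hlen : 1 ≤ t.length := by
      by_contra hcon
      have hz : t.length = 0 := by omega
      have : t = [] := List.length_eq_zero_iff.1 hz
      rw [this] at ht2
      have h6 := (mem_exits.1 ht2).2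
      rw [mem_dF] at h6
      exact h6 (dm_start h0 k hh1 hL hr)
    have hlast := (mem_exits.1 ht2).1.mem _ hlen le_rfl
    rw [mem_dF] at ht3 hlast ⊢
    refine ⟨⟨ht3.1.1, ht3.1.2.1, ?_⟩, ht3.2⟩
    have h7 := hlast.1.2.2
    have h9 := hex_level h0 hlast.1.1
    have h8 : tip v0 d0 t - v0 = (vx v0 d0 t t.length - v0) + gn k d0 := by
      rw [← hd, tip_eq]
      abel
    rw [h8, ip_add_left, ip_comm (gn k d0), gn_d0 h0 k]
    cases k
    · show _ + (1 : ℤ) < _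
      omega
    · show _ + (-1 : ℤ) < _
      omega
  have hi : ∀ v, v ∈ dF h0 v0 k T L r → v ∈ dF h0 v0 k' h L r' → v ∈ dF h0 v0 k h L r := by
    intro v h1 h2
    rw [mem_dF] at h1 h2 ⊢
    exact ⟨h2.1, h1.2⟩
  have key := four_dom h0 (dF_half h0 v0 k' T L r') hs (dF_low h0 v0 k hh) (dF_low h0 v0 k' hh) hi hsh hg β
  -- the walks through the new gate
  have h2 : ∑ t ∈ gP h0 v0 k' T h L r', fb β t ≤
      ∑ t ∈ (exits (dF h0 v0 k' T L r') v0 d0 \ exits (dF h0 v0 k T L r) v0 d0) \ exits (dF h0 v0 k' h L r') v0 d0,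
        fb β t := by
    apply Finset.sum_le_sum_of_subset_of_nonneg
    · intro t ht
      obtain ⟨h3, h4⟩ := Finset.mem_sdiff.1 ht
      obtain ⟨h5, h6⟩ := Finset.mem_filter.1 h3
      rw [Finset.mem_sdiff, Finset.mem_sdiff]
      refine ⟨⟨h5, fun h7 => ?_⟩, h4⟩
      obtain ⟨n1, n2, n3, n4⟩ := gn_ne hk h0
      rcases dm_exit h0 k hT hL hr h7 with ⟨hd, _⟩ | ⟨hd, _⟩ | ⟨hd, _⟩ | ⟨hd, _⟩
      · exact n1 (h6.symm.trans hd)
      · exact n2 (h6.symm.trans hd)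
      · exact n3 (h6.symm.trans hd)
      · exact n4 (h6.symm.trans hd)
    · intro t ht _
      exact fb_nonneg hβ (dm_wind h0 k' hT hL hr' (Finset.mem_sdiff.1 (Finset.mem_sdiff.1 ht).1).1)
  have h3 : ∑ t ∈ (exits (dF h0 v0 k T L r) v0 d0 \ exits (dF h0 v0 k' T L r') v0 d0) \ exits (dF h0 v0 k h L r) v0 d0,
        fb β t ≤ ∑ t ∈ gP h0 v0 k T h L r, fb β t := by
    apply Finset.sum_le_sum_of_subset_of_nonneg
    · intro t ht
      obtain ⟨h4, h5⟩ := Finset.mem_sdiff.1 ht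
      obtain ⟨h6, h7⟩ := Finset.mem_sdiff.1 h4
      refine Finset.mem_sdiff.2 ⟨Finset.mem_filter.2 ⟨h6, exit_gate h0 v0 (k' := k') (r' := r') hT hL hr h6 ?_⟩, h5⟩
      by_contra hcon
      obtain ⟨ha, _⟩ := mem_exits.1 h6
      exact h7 (mem_exits.2 ⟨⟨fun i h8 h9 => hs (ha.mem i h8 h9), ha.inj⟩, hcon⟩)
    · intro t ht _
      exact fb_nonneg hβ (dm_wind h0 k hT hL hr (Finset.mem_filter.1 (Finset.mem_sdiff.1 ht).1).1)
  -- the walks that cross the old gate below and leave through the top of the low strip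
  obtain ⟨Q, hQ⟩ : ∃ Q, Q = (exits (dF h0 v0 k' h L r') v0 d0 \ exits (dF h0 v0 k h L r) v0 d0) \
    exits (dF h0 v0 k' T L r') v0 d0 := ⟨_, rfl⟩
  rw [← hQ] at key
  have hQw : ∀ t ∈ Q, wind t = 0 := by
    intro t ht
    rw [hQ] at ht
    obtain ⟨h4, h5⟩ := Finset.mem_sdiff.1 ht
    have h6 := (Finset.mem_sdiff.1 h4).1
    have ha := (mem_exits.1 h6).1
    have htip : tip v0 d0 t ∈ dF h0 v0 k' T L r' := by
      by_contra hcon
      exact h5 (mem_exits.2 ⟨⟨fun i h8 h9 => dF_low h0 v0 k' hh (ha.mem i h8 h9), ha.inj⟩, hcon⟩)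
    rw [mem_dF] at htip
    obtain ⟨⟨_, c2, _⟩, c4, c5⟩ := htip
    rcases dm_exit h0 k' hh1 hL hr' h6 with ⟨_, h⟩ | ⟨hd, _⟩ | ⟨_, h⟩ | ⟨_, h⟩
    · omega
    · exact dm_wind_top h0 k' hh1 hL hr' h6 hd
    · omega
    · omega
  have h4 : Real.cos β' * wS Q ≤ Real.cos (gw k * (Real.pi / 8) + β') * wS (gE h0 v0 k h L r) := by
    have a1 := two_dom h0 (dF_half h0 v0 k h L r) (dF_half h0 v0 k' h L r') β'
    have a2 : ∑ t ∈ Q, fb β' t ≤
        ∑ t ∈ exits (dF h0 v0 k' h L r') v0 d0 \ exits (dF h0 v0 k h L r) v0 d0, fb β' t := by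
      apply Finset.sum_le_sum_of_subset_of_nonneg
      · intro t ht
        rw [hQ] at ht
        exact (Finset.mem_sdiff.1 ht).1
      · intro t ht _
        exact fb_nonneg hβ' (dm_wind h0 k' hh1 hL hr' (Finset.mem_sdiff.1 ht).1)
    have a3 : ∑ t ∈ exits (dF h0 v0 k h L r) v0 d0 \ exits (dF h0 v0 k' h L r') v0 d0, fb β' t ≤
        ∑ t ∈ gE h0 v0 k h L r, fb β' t := by
      apply Finset.sum_le_sum_of_subset_of_nonneg
      · intro t ht
        obtain ⟨h4, h5⟩ := Finset.mem_sdiff.1 ht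
        refine Finset.mem_filter.2 ⟨h4, exit_gate h0 v0 (k' := k') (r' := r') hh1 hL hr h4 ?_⟩
        by_contra hcon
        obtain ⟨ha, _⟩ := mem_exits.1 h4
        exact h5 (mem_exits.2 ⟨⟨fun i h6 h7 => hsh (ha.mem i h6 h7), ha.inj⟩, hcon⟩)
      · intro t ht _
        exact fb_nonneg hβ' (dm_wind h0 k hh1 hL hr (Finset.mem_filter.1 ht).1)
    rw [sum_fb_const hQw] at a2
    rw [sum_fb_const (gE_wind h0 v0 k hh1 hL hr)] at a3
    have e : ((0 : ℤ) : ℝ) * (Real.pi / 8) + β' = β' := by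
      push_cast
      ring
    rw [e] at a2
    linarith
  rw [sum_fb_const (A := gP h0 v0 k' T h L r') (fun t ht => gE_wind h0 v0 k' hT hL hr' t (Finset.mem_sdiff.1 ht).1)] at h2
  rw [sum_fb_const (A := gP h0 v0 k T h L r) (fun t ht => gE_wind h0 v0 k hT hL hr t (Finset.mem_sdiff.1 ht).1)] at h3
  have h5 : ∑ t ∈ Q, fb β t = Real.cos β' * wS Q := by
    rw [sum_fb_const hQw, ← hββ]
    congr 2
    push_cast
    ring
  linarith

/-- the first gate -/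
lemma gate_first [DecidableEq (List Bool)] {T h L r : ℕ} (hh1 : 1 ≤ h) (hh : h ≤ T) (hL : 1 ≤ L) (hr : 1 ≤ r) :
    wS (gP h0 v0 false T h L r) ≤ Real.cos (Real.pi / 8) * Ex (dF h0 v0 false h L r) v0 d0 d0 := by
  have hT : 1 ≤ T := le_trans hh1 hh
  have hβ : |Real.pi / 8| ≤ Real.pi / 8 := by
    rw [abs_of_pos (by positivity)]
  have h1 := two_dom h0 (dF_half h0 v0 false h L r) (dF_half h0 v0 false T L r) (Real.pi / 8)
  have h2 : ∑ t ∈ gP h0 v0 false T h L r, fb (Real.pi / 8) t ≤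
      ∑ t ∈ exits (dF h0 v0 false T L r) v0 d0 \ exits (dF h0 v0 false h L r) v0 d0, fb (Real.pi / 8) t := by
    apply Finset.sum_le_sum_of_subset_of_nonneg
    · intro t ht
      obtain ⟨h3, h4⟩ := Finset.mem_sdiff.1 ht
      exact Finset.mem_sdiff.2 ⟨(Finset.mem_filter.1 h3).1, h4⟩
    · intro t ht _
      exact fb_nonneg hβ (dm_wind h0 false hT hL hr (Finset.mem_sdiff.1 ht).1)
  have h3 : ∑ t ∈ exits (dF h0 v0 false h L r) v0 d0 \ exits (dF h0 v0 false T L r) v0 d0, fb (Real.pi / 8) t ≤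
      ∑ t ∈ (exits (dF h0 v0 false h L r) v0 d0).filter (fun t => dx d0 t t.length = d0), fb (Real.pi / 8) t := by
    apply Finset.sum_le_sum_of_subset_of_nonneg
    · intro t ht
      obtain ⟨h4, h5⟩ := Finset.mem_sdiff.1 ht
      refine Finset.mem_filter.2 ⟨h4, ?_⟩
      have ha := (mem_exits.1 h4).1
      have htip : tip v0 d0 t ∈ dF h0 v0 false T L r := by
        by_contra hcon
        exact h5 (mem_exits.2 ⟨⟨fun i h8 h9 => dF_low h0 v0 false hh (ha.mem i h8 h9), ha.inj⟩, hcon⟩)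
      rw [mem_dF] at htip
      obtain ⟨⟨_, c2, _⟩, c4, c5⟩ := htip
      rcases dm_exit h0 false hh1 hL hr h4 with ⟨_, h⟩ | ⟨hd, _⟩ | ⟨_, h⟩ | ⟨_, h⟩
      · omega
      · exact hd
      · omega
      · omega
    · intro t ht _
      exact fb_nonneg hβ (dm_wind h0 false hh1 hL hr (Finset.mem_filter.1 ht).1)
  rw [sum_fb_const (A := gP h0 v0 false T h L r) (fun t ht => gE_wind h0 v0 false hT hL hr t (Finset.mem_sdiff.1 ht).1)] at h2
  rw [sum_fb_const (w := 0) (fun t ht => dm_wind_top h0 false hh1 hL hr (Finset.mem_filter.1 ht).1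
    (Finset.mem_filter.1 ht).2)] at h3
  have e1 : (gw false : ℝ) * (Real.pi / 8) + Real.pi / 8 = 0 := by
    show ((-1 : ℤ) : ℝ) * (Real.pi / 8) + Real.pi / 8 = 0
    push_cast
    ring
  have e2 : ((0 : ℤ) : ℝ) * (Real.pi / 8) + Real.pi / 8 = Real.pi / 8 := by
    push_cast
    ring
  rw [e1, Real.cos_zero] at h2
  rw [e2] at h3
  have e3 : Ex (dF h0 v0 false h L r) v0 d0 d0 =
      wS ((exits (dF h0 v0 false h L r) v0 d0).filter (fun t => dx d0 t t.length = d0)) := rfl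
  rw [e3]
  linarith

lemma gE_split [DecidableEq (List Bool)] (k : Bool) (T h L r : ℕ) :
    wS (gE h0 v0 k T L r) ≤ wS (gP h0 v0 k T h L r) + wS (gE h0 v0 k h L r) := by
  have h1 := Finset.sum_inter_add_sum_sdiff (gE h0 v0 k T L r) (exits (dF h0 v0 k h L r) v0 d0) (fun t => xc ^ t.length)
  have h2 : wS (gE h0 v0 k T L r ∩ exits (dF h0 v0 k h L r) v0 d0) ≤ wS (gE h0 v0 k h L r) := by
    apply wS_mono
    intro t ht
    obtain ⟨a1, a2⟩ := Finset.mem_inter.1 ht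
    exact Finset.mem_filter.2 ⟨a2, (Finset.mem_filter.1 a1).2⟩
  unfold wS at h2 ⊢
  unfold gP
  linarith

end

end Tube

end HexObs
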